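import Pool.Agent.Q115.HLBase
import Pool.Agent.Results.MP_a08d0a_co.IidLevel

/-!
# The expected number of halving lines of independent random points

`Line`, `GeneralPosition`, `IsBisector` are as in `Pool/Agent/W296/HL3.lean`:

* `Line a b c = {p | a * p.1 + b * p.2 = c}`,
* `GeneralPosition P`: no three distinct points of the finite set `P` lie on a common line,
* `IsBisector P L`: `L` is a line through two distinct points of `P` with exactly
  `|P| / 2 - 1` points of `P` on each open side.

For EVERY probability measure `μ` on the plane for which all lines are null sets, the expected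
number of halving lines of `n` independent `μ`-random points is at most `C n ^ (7 / 6)`, with an
absolute constant `C`. (The proof is the dual of the bound for a single level of independent random
lines.)
-/

set_option autoImplicit false

namespace Pool.Agent.Results.MP_e17eac_co.IidPoints

open Finset MeasureTheory Filter
open Pool.Agent.W296.HL (Line GeneralPosition IsBisector)
open scoped ENNReal

/-- There is an absolute constant `C` such that for every probability measure `μ` on the plane with
all lines null and every even `n`, `n` independent `μ`-random points are almost surely distinct and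
in general position, and the expected number of their halving lines is at most `C n ^ (7 / 6)`. -/
theorem result : ∃ C : ℝ, 0 < C ∧ ∀ (μ : Measure (ℝ × ℝ)) [IsProbabilityMeasure μ],
    (∀ a b c : ℝ, (a ≠ 0 ∨ b ≠ 0) → μ (Line a b c) = 0) → ∀ n : ℕ, Even n →
    (∀ᵐ P ∂Measure.pi (fun _ : Fin n => μ),
      Function.Injective P ∧ GeneralPosition (univ.image P)) ∧
    AEMeasurable (fun P : Fin n → ℝ × ℝ =>
      ({L | IsBisector (univ.image P) L}.ncard : ℝ≥0∞)) (Measure.pi (fun _ : Fin n => μ)) ∧
    ∫⁻ P, ({L | IsBisector (univ.image P) L}.ncard : ℝ≥0∞) ∂Measure.pi (fun _ : Fin n => μ) ≤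
      ENNReal.ofReal (C * (n : ℝ) ^ (7 / 6 : ℝ)) := by
  obtain ⟨C, hC, h⟩ := Pool.Agent.Results.MP_a08d0a_co.IidLevel.result
  refine ⟨C, hC, fun μ _ hμ n hn => ?_⟩
  obtain ⟨-, h2, -⟩ := h μ hμ n
  have hae : ∀ᵐ P ∂Measure.pi (fun _ : Fin n => μ), Function.Injective P ∧
      GeneralPosition (univ.image P) ∧ {L | IsBisector (univ.image P) L}.ncard =
        (Pool.Agent.Results.MP_a08d0a_co.IidLevel.crossings
          (Pool.Agent.Results.MP_a08d0a_co.IidLevel.sl P)
          (Pool.Agent.Results.MP_a08d0a_co.IidLevel.ic P) (n / 2 - 1)).ncard := by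
    filter_upwards [Pool.Agent.H189R2.Iid.ae_GP hμ n] with P hP
    have hS : Pool.Agent.Results.MP_a08d0a_co.SmoothedLevel.Simple
        (Pool.Agent.Results.MP_a08d0a_co.IidLevel.sl P)
        (Pool.Agent.Results.MP_a08d0a_co.IidLevel.ic P) :=
      Pool.Agent.Results.MP_a08d0a_co.IidLevel.simple_of_GP hP
    have ha : Function.Injective (Pool.Agent.Results.MP_a08d0a_co.IidLevel.sl P) :=
      fun i j hij => hP.1 i j hij
    have hpts : Pool.Agent.Q115.HLBase.pts (Pool.Agent.Results.MP_a08d0a_co.IidLevel.sl P)
        (Pool.Agent.Results.MP_a08d0a_co.IidLevel.ic P) = P := by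
      funext i
      rfl
    refine ⟨fun i j hij => hP.1 i j (by rw [hij]), ?_, ?_⟩
    · have := Pool.Agent.Q115.HLBase.gp ha hS
      rwa [hpts] at this
    · have := Pool.Agent.Q115.HLBase.bis_eq ha hS hn
      rw [hpts] at this
      exact this
  have hm := Pool.Agent.Results.MP_a08d0a_co.IidLevel.measurable_crossings (n := n) (n / 2 - 1)
  refine ⟨?_, ?_, ?_⟩
  · filter_upwards [hae] with P hP
    exact ⟨hP.1, hP.2.1⟩
  · refine hm.aemeasurable.congr ?_
    filter_upwards [hae] with P hP
    rw [hP.2.2]
  · have hcongr : ∫⁻ P, ({L | IsBisector (univ.image P) L}.ncard : ℝ≥0∞)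
        ∂Measure.pi (fun _ : Fin n => μ) =
        ∫⁻ P, ((Pool.Agent.Results.MP_a08d0a_co.IidLevel.crossings
          (Pool.Agent.Results.MP_a08d0a_co.IidLevel.sl P)
          (Pool.Agent.Results.MP_a08d0a_co.IidLevel.ic P) (n / 2 - 1)).ncard : ℝ≥0∞)
          ∂Measure.pi (fun _ : Fin n => μ) := by
      apply lintegral_congr_ae
      filter_upwards [hae] with P hP
      rw [hP.2.2]
    rw [hcongr]
    refine (h2 (n / 2 - 1)).trans ?_
    apply ENNReal.ofReal_le_ofReal
    rcases Nat.eq_zero_or_pos n with h0 | h0
    · subst h0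
      simp
    · have hn0 : (0 : ℝ) < n := by exact_mod_cast h0
      have hk : ((min (n / 2 - 1) (n - 2 - (n / 2 - 1)) : ℕ) : ℝ) + 1 ≤ n := by
        have : min (n / 2 - 1) (n - 2 - (n / 2 - 1)) + 1 ≤ n := by omega
        exact_mod_cast this
      have h76 : (n : ℝ) ^ (7 / 6 : ℝ) = n * (n : ℝ) ^ (1 / 6 : ℝ) := by
        rw [show (7 / 6 : ℝ) = 1 + 1 / 6 by norm_num, Real.rpow_add hn0, Real.rpow_one]
      rw [h76, ← mul_assoc]
      apply mul_le_mul_of_nonneg_left _ (by positivity)
      exact Real.rpow_le_rpow (by positivity) hk (by norm_num)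

end Pool.Agent.Results.MP_e17eac_co.IidPoints
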