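import Pool.Agent.Q115.HLMain

/-!
# Halving lines after the deletion of a few points

`Line`, `GeneralPosition`, `IsBisector` are as in `Pool/Agent/W296/HL3.lean`:

* `Line a b c = {p | a * p.1 + b * p.2 = c}`,
* `GeneralPosition P`: no three distinct points of the finite set `P` lie on a common line,
* `IsBisector P L`: `L` is a line through two distinct points of `P` with exactly
  `|P| / 2 - 1` points of `P` on each open side.

Let `n` points in general position be given, and delete every point independently with probability
`r ≤ 1 / 2`. The expected number of bisectors of the remaining set is at most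
`200 n ^ (7 / 6) r ^ (-1 / 6)`. Consequently from EVERY set of an even number `n` of points in
general position one can delete an even number, at most `δ n`, of the points so that the remaining
set has at most `1100 n ^ (7 / 6) δ ^ (-1 / 6)` halving lines.
-/

set_option autoImplicit false

namespace Pool.Agent.Results.MP_e17eac_co.RandomDeletions

open Finset
open Pool.Agent.W296.HL (Line GeneralPosition IsBisector)

open scoped Classical in
/-- (1) The expected number of bisectors of the set which remains after every point of a set of `n`
points in general position has been deleted independently with probability `r ≤ 1 / 2` (the sum is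
over the set `D` of the deleted points) is at most `200 n ^ (7 / 6) r ^ (-1 / 6)`.

(2) Every set of an even number `n` of points in general position has a subset of an even number
`≥ (1 - δ) n` of points with at most `1100 n ^ (7 / 6) δ ^ (-1 / 6)` halving lines. -/
theorem result :
    (∀ (n : ℕ) (P : Fin n → ℝ × ℝ), Function.Injective P → GeneralPosition (univ.image P) →
      ∀ r : ℝ, 0 < r → r ≤ 1 / 2 →
      ∑ D : Finset (Fin n), r ^ D.card * (1 - r) ^ (n - D.card) *
        ({L | IsBisector (Dᶜ.image P) L}.ncard : ℝ) ≤
          200 * (n : ℝ) ^ (7 / 6 : ℝ) * r ^ (-(1 / 6) : ℝ)) ∧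
    (∀ Q : Finset (ℝ × ℝ), GeneralPosition Q → Even Q.card → ∀ δ : ℝ, 0 < δ → δ ≤ 1 →
      ∃ R ⊆ Q, Even R.card ∧ (1 - δ) * Q.card ≤ R.card ∧
        ({L | IsBisector R L}.ncard : ℝ) ≤
          1100 * (Q.card : ℝ) ^ (7 / 6 : ℝ) * δ ^ (-(1 / 6) : ℝ)) := by
  refine ⟨fun n P hP hG r hr0 hr => ?_, fun Q hG hQ δ hδ0 hδ =>
    Pool.Agent.Q115.HLMain.exists_subset hG hQ hδ0 hδ⟩
  exact Pool.Agent.Q115.HLMain.expected hP hG hr0 hr

end Pool.Agent.Results.MP_e17eac_co.RandomDeletions
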